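import Pool.Agent.Lib.TG_h98.Fam
import Pool.Agent.Lib.TG_h38.Blow
import Pool.Agent.Lib.TG.ZDim

/-!
# The family lemma for the local rings `RV V P` and `NV V P`; blowing up a coherent family
-/

set_option autoImplicit false

namespace Pool.Agent.TG98

open Pool.Agent.LU2 Pool.Agent.TG

universe u

variable {k K : Type u} [Field k] [Field K] [Algebra k K]

/-! ### Classes of valuation rings -/

theorem zc_ov : Zc k (Ov k : ValuationSubring K → Prop) where
  base := fun _ h => h
  spec := fun V A _ hA => ⟨V, le_rfl, fun c => hA _ (A.algebraMap_mem c), hA⟩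

theorem zc_zdim [IsAlgClosed k] : Zc k (ZDim k : ValuationSubring K → Prop) where
  base := fun _ h => h.ov
  spec := fun V A hfg hA => by
    let m : Ideal A :=
      { carrier := {a | V.valuation (a : K) < 1}
        add_mem' := fun {a b} ha hb => lt_of_le_of_lt (V.valuation.map_add _ _) (max_lt ha hb)
        zero_mem' := by simp
        smul_mem' := by
          intro c a ha
          change V.valuation ((c : K) * (a : K)) < 1
          rw [map_mul]
          calc V.valuation (c : K) * V.valuation (a : K) ≤ 1 * V.valuation (a : K) :=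
                mul_le_mul_left ((V.valuation_le_one_iff _).2 (hA c c.2)) _
            _ = V.valuation (a : K) := one_mul _
            _ < 1 := ha }
    have hm : m ≠ ⊤ := by
      intro h
      have h1 : (1 : A) ∈ m := by rw [h]; trivial
      have h2 : V.valuation ((1 : A) : K) < 1 := h1
      rw [Subalgebra.coe_one, map_one] at h2
      exact lt_irrefl _ h2
    obtain ⟨W, h1, h2, h3, -⟩ := exists_zdim_centre V A hfg hA m hm fun _ ha => ha
    exact ⟨W, h1, h2, h3⟩

/-! ### The two systems of charts -/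

theorem charts_ch (P : Submodule k K) : Charts P (ch P) where
  le := fun _ _ _ => le_rfl
  int := fun f _ _ x hx => by
    have := isIntegral_algebraMap (R := ch P f) (A := K) (x := ⟨x, hx⟩)
    exact this
  loc := fun V _ f f' hf hf' => by rw [← RV_eq hf, ← RV_eq hf']

theorem charts_chN (P : Submodule k K) : Charts P (chN P) where
  le := fun _ _ _ => le_ncl _
  int := fun _ _ _ _ hx => hx
  loc := fun V _ f f' hf hf' => by rw [← NV_eq hf, ← NV_eq hf']

/-- The family `I` of (fractional) ideals is coherent: near every `V ∈ Z` it is generated by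
finitely many elements. `R V` is the local ring (`RV V P` or `NV V P`). -/
def CohF (Z : ValuationSubring K → Prop) (P : Submodule k K)
    (R : ValuationSubring K → Subalgebra k K) (I : ValuationSubring K → Submodule k K) : Prop :=
  ∀ V, Z V → ∃ f, IsMin V P f ∧ ∃ T F : Finset K, (∀ x ∈ F, x ∈ R V) ∧
    ∀ V', Z V' → IsMin V' P f → (∀ x ∈ F, x ∈ R V') →
      I V' = Subalgebra.toSubmodule (R V') * Submodule.span k (T : Set K)

section

variable {Z : ValuationSubring K → Prop} {P : Submodule k K}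
  {I : ValuationSubring K → Submodule k K}

theorem CohF.coh_RV (hI : CohF Z P (fun V => RV V P) I) : Coh Z P (ch P) I := by
  intro V hV
  obtain ⟨f, hf, T, F, hF, hT⟩ := hI V hV
  refine ⟨f, hf, T, F, fun x hx => RV_eq hf ▸ hF x hx, fun V' hV' hf' hF' => ?_⟩
  rw [← RV_eq hf']
  exact hT V' hV' hf' fun x hx => by
    have := hF' x hx
    rwa [← RV_eq hf'] at this

theorem CohF.coh_NV (hI : CohF Z P (fun V => NV V P) I) : Coh Z P (chN P) I := by
  intro V hV
  obtain ⟨f, hf, T, F, hF, hT⟩ := hI V hV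
  refine ⟨f, hf, T, F, fun x hx => NV_eq hf ▸ hF x hx, fun V' hV' hf' hF' => ?_⟩
  rw [← NV_eq hf']
  exact hT V' hV' hf' fun x hx => by
    have := hF' x hx
    rwa [← NV_eq hf'] at this

/-- **The family lemma** for `RV`. -/
theorem family_RV (hZ : Zc k Z) (hP : P.FG) (hI : CohF Z P (fun V => RV V P) I) :
    ∃ N₀ : ℕ, ∀ N ≥ N₀, ∃ Q : Submodule k K, Q.FG ∧ ∀ V, Z V → ∀ f, IsMin V P f →
      I V = Subalgebra.toSubmodule (RV V P) * dv Q (f ^ N) := by
  obtain ⟨N₀, h⟩ := family hZ hP (charts_ch P) hI.coh_RV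
  refine ⟨N₀, fun N hN => ?_⟩
  obtain ⟨Q, hQ, h⟩ := h N hN
  exact ⟨Q, hQ, fun V hV f hf => by rw [RV_eq hf]; exact h V hV f hf⟩

/-- **The family lemma** for `NV`. -/
theorem family_NV (hZ : Zc k Z) (hP : P.FG) (hI : CohF Z P (fun V => NV V P) I) :
    ∃ N₀ : ℕ, ∀ N ≥ N₀, ∃ Q : Submodule k K, Q.FG ∧ ∀ V, Z V → ∀ f, IsMin V P f →
      I V = Subalgebra.toSubmodule (NV V P) * dv Q (f ^ N) := by
  obtain ⟨N₀, h⟩ := family hZ hP (charts_chN P) hI.coh_NV
  refine ⟨N₀, fun N hN => ?_⟩
  obtain ⟨Q, hQ, h⟩ := h N hN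
  exact ⟨Q, hQ, fun V hV f hf => by rw [NV_eq hf]; exact h V hV f hf⟩

/-- The module over `R` generated by a `k`-subspace. -/
theorem coe_span_eq (R : Subalgebra k K) (Q : Submodule k K) (c : K) :
    (Submodule.span R ((fun g => g / c) '' (Q : Set K)) : Set K) =
      (Subalgebra.toSubmodule R * dv Q c : Submodule k K) := by
  ext x
  constructor
  · intro hx
    induction hx using Submodule.span_induction with
    | mem x hx =>
      obtain ⟨g, hg, rfl⟩ := hx
      have := Submodule.mul_mem_mul (show (1 : K) ∈ Subalgebra.toSubmodule R from R.one_mem)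
        (mem_dv.2 ⟨g, hg, rfl⟩ : g / c ∈ dv Q c)
      rwa [one_mul] at this
    | zero => exact Submodule.zero_mem _
    | add x y _ _ hx hy => exact Submodule.add_mem _ hx hy
    | smul a x _ hx =>
      rw [Algebra.smul_def]
      exact smul_mem' a.2 hx
  · intro hx
    refine Submodule.mul_induction_on (C := fun x => x ∈
      (Submodule.span R ((fun g => g / c) '' (Q : Set K)) : Set K)) hx ?_ ?_
    · intro m hm y hy
      obtain ⟨q, hq, rfl⟩ := mem_dv.1 hy
      have := Submodule.smul_mem (Submodule.span R ((fun g => g / c) '' (Q : Set K)))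
        (⟨m, hm⟩ : R) (Submodule.subset_span ⟨q, hq, rfl⟩)
      exact this
    · intro x y hx hy
      exact Submodule.add_mem _ hx hy

/-- **Blowing up a coherent family of (fractional) ideals.** -/
theorem blow_RV (hZ : Zc k Z) (hP : IsModel P) (hI : CohF Z P (fun V => RV V P) I)
    (h0 : ∃ V, Z V ∧ I V ≠ ⊥) :
    ∃ P' : Submodule k K, IsModel P' ∧ Dom P P' ∧ (∀ V, Z V → I V ≠ ⊥) ∧ ∀ V, Z V → ∀ g ∈ I V,
      g ≠ 0 → (∀ x ∈ I V, x / g ∈ V) → RV V P' = locV V (bl (RV V P) (I V : Set K) g) := by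
  obtain ⟨N, h⟩ := family_RV hZ hP.fg hI
  obtain ⟨Q, hQ, h⟩ := h N le_rfl
  have hQ0 : Q ≠ ⊥ := by
    rintro rfl
    obtain ⟨V, hV, hne⟩ := h0
    obtain ⟨f, hf⟩ := exists_isMin (hZ.base V hV) hP
    refine hne ?_
    rw [h V hV f hf]
    simp [dv]
  have hQm : IsModel Q := ⟨hQ, hQ0⟩
  have hIne : ∀ V, Z V → I V ≠ ⊥ := by
    intro V hV hbot
    obtain ⟨f, hf⟩ := exists_isMin (hZ.base V hV) hP
    rw [h V hV f hf] at hbot
    obtain ⟨q, hq, hq0⟩ := (Submodule.ne_bot_iff _).1 hQ0
    have := Submodule.mul_mem_mul (show (1 : K) ∈ Subalgebra.toSubmodule (RV V P) from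
      (RV V P).one_mem) (mem_dv.2 ⟨q, hq, rfl⟩ : q / f ^ N ∈ dv Q (f ^ N))
    rw [hbot, Submodule.mem_bot, one_mul] at this
    exact div_ne_zero hq0 (pow_ne_zero _ hf.ne) this
  refine ⟨P * Q, hP.mul hQm, Dom.mul_left hP hQm, hIne, fun V hV g hg hg0 hmin => ?_⟩
  obtain ⟨f, hf⟩ := exists_isMin (hZ.base V hV) hP
  have hE : (Submodule.span (RV V P) ((fun g => g / f ^ N) '' (Q : Set K)) : Set K) = I V := by
    rw [coe_span_eq, h V hV f hf]
  have hg' : g ∈ Submodule.span (RV V P) ((fun g => g / f ^ N) '' (Q : Set K)) := by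
    have : g ∈ (Submodule.span (RV V P) ((fun g => g / f ^ N) '' (Q : Set K)) : Set K) := by
      rw [hE]; exact hg
    exact this
  rw [RV_mul_ideal (hZ.base V hV) hP hQm (pow_ne_zero N hf.ne) hg' hg0 (fun x hx => hmin x (by
    have : x ∈ (Submodule.span (RV V P) ((fun g => g / f ^ N) '' (Q : Set K)) : Set K) := hx
    rw [hE] at this
    exact this)), hE]

/-- **Normalised blowing up of a coherent family of (fractional) ideals.** -/
theorem blow_NV (hZ : Zc k Z) (hP : IsModel P) (hI : CohF Z P (fun V => NV V P) I)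
    (h0 : ∃ V, Z V ∧ I V ≠ ⊥) :
    ∃ P' : Submodule k K, IsModel P' ∧ Dom P P' ∧ (∀ V, Z V → I V ≠ ⊥) ∧ ∀ V, Z V → ∀ g ∈ I V,
      g ≠ 0 → (∀ x ∈ I V, x / g ∈ V) → NV V P' = locV V (ncl (bl (NV V P) (I V : Set K) g)) := by
  obtain ⟨N, h⟩ := family_NV hZ hP.fg hI
  obtain ⟨Q, hQ, h⟩ := h N le_rfl
  have hQ0 : Q ≠ ⊥ := by
    rintro rfl
    obtain ⟨V, hV, hne⟩ := h0
    obtain ⟨f, hf⟩ := exists_isMin (hZ.base V hV) hP
    refine hne ?_
    rw [h V hV f hf]
    simp [dv]
  have hQm : IsModel Q := ⟨hQ, hQ0⟩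
  have hIne : ∀ V, Z V → I V ≠ ⊥ := by
    intro V hV hbot
    obtain ⟨f, hf⟩ := exists_isMin (hZ.base V hV) hP
    rw [h V hV f hf] at hbot
    obtain ⟨q, hq, hq0⟩ := (Submodule.ne_bot_iff _).1 hQ0
    have := Submodule.mul_mem_mul (show (1 : K) ∈ Subalgebra.toSubmodule (NV V P) from
      (NV V P).one_mem) (mem_dv.2 ⟨q, hq, rfl⟩ : q / f ^ N ∈ dv Q (f ^ N))
    rw [hbot, Submodule.mem_bot, one_mul] at this
    exact div_ne_zero hq0 (pow_ne_zero _ hf.ne) this
  refine ⟨P * Q, hP.mul hQm, Dom.mul_left hP hQm, hIne, fun V hV g hg hg0 hmin => ?_⟩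
  obtain ⟨f, hf⟩ := exists_isMin (hZ.base V hV) hP
  have hE : (Submodule.span (NV V P) ((fun g => g / f ^ N) '' (Q : Set K)) : Set K) = I V := by
    rw [coe_span_eq, h V hV f hf]
  have hg' : g ∈ Submodule.span (NV V P) ((fun g => g / f ^ N) '' (Q : Set K)) := by
    have : g ∈ (Submodule.span (NV V P) ((fun g => g / f ^ N) '' (Q : Set K)) : Set K) := by
      rw [hE]; exact hg
    exact this
  rw [NV_mul_ideal (hZ.base V hV) hP hQm (pow_ne_zero N hf.ne) hg' hg0 (fun x hx => hmin x (by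
    have : x ∈ (Submodule.span (NV V P) ((fun g => g / f ^ N) '' (Q : Set K)) : Set K) := hx
    rw [hE] at this
    exact this)), hE]

end

end Pool.Agent.TG98
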