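import Pool.Agent.Lib.TG.Defs
import Pool.Agent.Lib.ZRC.Compact

/-!
# Coherent families of (fractional) ideals come from one finite dimensional space
-/

set_option autoImplicit false

namespace Pool.Agent.TG98

open Pool.Agent.LU2

universe u

variable {k K : Type u} [Field k] [Field K] [Algebra k K]

/-! ### `Algebra.adjoin` and denominators -/

/-- The subalgebra `S[1/s]`. -/
def away (S : Subalgebra k K) (s : K) (hs : s ∈ S) : Subalgebra k K where
  carrier := {x | ∃ n : ℕ, s ^ n * x ∈ S}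
  mul_mem' := by
    rintro x y ⟨n, hn⟩ ⟨m, hm⟩
    refine ⟨n + m, ?_⟩
    have := S.mul_mem hn hm
    rwa [show s ^ (n + m) * (x * y) = s ^ n * x * (s ^ m * y) by ring]
  add_mem' := by
    rintro x y ⟨n, hn⟩ ⟨m, hm⟩
    refine ⟨n + m, ?_⟩
    have := S.add_mem (S.mul_mem (S.pow_mem hs m) hn) (S.mul_mem (S.pow_mem hs n) hm)
    rwa [show s ^ (n + m) * (x + y) = s ^ m * (s ^ n * x) + s ^ n * (s ^ m * y) by ring]
  algebraMap_mem' := by
    intro c
    exact ⟨0, by simp⟩

theorem mem_away {S : Subalgebra k K} {s : K} {hs : s ∈ S} {x : K} :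
    x ∈ away S s hs ↔ ∃ n : ℕ, s ^ n * x ∈ S := Iff.rfl

theorem le_away (S : Subalgebra k K) (s : K) (hs : s ∈ S) : S ≤ away S s hs := fun x hx =>
  ⟨0, by simpa using hx⟩

theorem inv_mem_away {S : Subalgebra k K} {s : K} {hs : s ∈ S} (hs0 : s ≠ 0) :
    s⁻¹ ∈ away S s hs := ⟨1, by rw [pow_one, mul_inv_cancel₀ hs0]; exact S.one_mem⟩

/-- Clearing the denominators. -/
theorem clear {V : ValuationSubring K} {S : Subalgebra k K} {T : Submodule k K} {x : K}
    (hx : x ∈ Subalgebra.toSubmodule (locV V S) * T) :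
    ∃ b ∈ S, V.valuation b = 1 ∧ b * x ∈ Subalgebra.toSubmodule S * T := by
  refine Submodule.mul_induction_on hx ?_ ?_
  · rintro y ⟨a, ha, b, hb, h1, rfl⟩ t ht
    refine ⟨b, hb, h1, ?_⟩
    have hb0 : b ≠ 0 := by rintro rfl; simp at h1
    rw [show b * (a / b * t) = a * t by field_simp]
    exact Submodule.mul_mem_mul ha ht
  · rintro y z ⟨b, hb, h1, hby⟩ ⟨c, hc, h2, hcz⟩
    refine ⟨b * c, S.mul_mem hb hc, by rw [map_mul, h1, h2, one_mul], ?_⟩
    have e : b * c * (y + z) = c * (b * y) + b * (c * z) := by ring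
    rw [e]
    have hm : ∀ s ∈ S, ∀ w ∈ Subalgebra.toSubmodule S * T,
        s * w ∈ Subalgebra.toSubmodule S * T := by
      intro s hs w hw
      have := Submodule.mul_mem_mul (show s ∈ Subalgebra.toSubmodule S from hs) hw
      rwa [← mul_assoc, (Subalgebra.isIdempotentElem_toSubmodule S).eq] at this
    exact Submodule.add_mem _ (hm c hc _ hby) (hm b hb _ hcz)

theorem smul_mem' {S : Subalgebra k K} {T : Submodule k K} {s w : K} (hs : s ∈ S)
    (hw : w ∈ Subalgebra.toSubmodule S * T) : s * w ∈ Subalgebra.toSubmodule S * T := by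
  have := Submodule.mul_mem_mul (show s ∈ Subalgebra.toSubmodule S from hs) hw
  rwa [← mul_assoc, (Subalgebra.isIdempotentElem_toSubmodule S).eq] at this

theorem val_eq_one_of_le {V V₁ : ValuationSubring K} (hle : V ≤ V₁) {f : K}
    (h : V.valuation f = 1) : V₁.valuation f = 1 := by
  refine le_antisymm (val_le_one_of_le hle h.le) ?_
  by_contra h1
  push Not at h1
  exact absurd (val_lt_one_of_le hle h1) (by rw [h]; exact lt_irrefl _)

/-- A class of valuation rings that suffices to test things on. -/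
structure Zc (k : Type u) {K : Type u} [Field k] [Field K] [Algebra k K]
    (Z : ValuationSubring K → Prop) : Prop where
  /-- all members contain `k` -/
  base : ∀ V, Z V → ∀ c : k, algebraMap k K c ∈ V
  /-- specialization -/
  spec : ∀ (V : ValuationSubring K) (A : Subalgebra k K), A.FG → (∀ a ∈ A, a ∈ V) →
    ∃ V₀ ≤ V, Z V₀ ∧ ∀ a ∈ A, a ∈ V₀

/-- An element that is integral over a subring of `V` is in `V`. -/
theorem mem_of_isIntegral {V : ValuationSubring K} {B : Subalgebra k K} (hB : ∀ b ∈ B, b ∈ V)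
    {x : K} (hx : IsIntegral B x) : x ∈ V := by
  obtain ⟨p, hp, hpx⟩ := hx
  have hmem : x ∈ V.toSubring := by
    have hint : IsIntegral V x := by
      refine ⟨p.map ((Subring.inclusion (show B.toSubring ≤ V.toSubring from fun b hb => hB b hb)) :
        B →+* V), hp.map _, ?_⟩
      rw [Polynomial.eval₂_map]
      exact hpx
    obtain ⟨y, hy⟩ := IsIntegrallyClosed.algebraMap_eq_of_integral (R := V) (K := K) hint
    rw [← hy]
    exact y.2
  exact hmem

/-- `S` is integral over a finitely generated subalgebra. -/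
def IntFG (S : Subalgebra k K) : Prop := ∃ B : Subalgebra k K, B.FG ∧ B ≤ S ∧ ∀ x ∈ S, IsIntegral B x

theorem Zc.spec' {Z : ValuationSubring K → Prop} (hZ : Zc k Z) {V : ValuationSubring K}
    {A : Subalgebra k K} (hA : IntFG A) (hV : ∀ a ∈ A, a ∈ V) :
    ∃ V₀ ≤ V, Z V₀ ∧ ∀ a ∈ A, a ∈ V₀ := by
  obtain ⟨B, hB, hBA, hint⟩ := hA
  obtain ⟨V₀, hle, hZ₀, h0⟩ := hZ.spec V B hB fun b hb => hV b (hBA hb)
  exact ⟨V₀, hle, hZ₀, fun a ha => mem_of_isIntegral h0 (hint a ha)⟩

theorem IntFG.away {S : Subalgebra k K} (h : IntFG S) {s : K} (hs : s ∈ S) (hs0 : s ≠ 0) :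
    IntFG (away S s hs) := by
  classical
  obtain ⟨B, hB, hBS, hint⟩ := h
  obtain ⟨F, hF⟩ := hB
  refine ⟨Algebra.adjoin k (insert s⁻¹ (F : Set K)), ⟨insert s⁻¹ F, by simp⟩, ?_, ?_⟩
  · refine Algebra.adjoin_le ?_
    intro x hx
    rcases hx with rfl | hx
    · exact inv_mem_away hs0
    · exact le_away S s hs (hBS (hF ▸ Algebra.subset_adjoin hx))
  · rintro x ⟨n, hn⟩
    set B' := Algebra.adjoin k (insert s⁻¹ (F : Set K)) with hB'
    have hBB : B ≤ B' := by
      rw [← hF]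
      exact Algebra.adjoin_mono (Set.subset_insert _ _)
    have h1 : IsIntegral B' (s ^ n * x) := by
      obtain ⟨p, hp, hpx⟩ := hint _ hn
      exact ⟨p.map (Subalgebra.inclusion hBB).toRingHom, hp.map _, by
        rw [Polynomial.eval₂_map]; exact hpx⟩
    have h2 : IsIntegral B' (s⁻¹ ^ n) :=
      (isIntegral_algebraMap (R := B') (A := K)
        (x := ⟨s⁻¹, Algebra.subset_adjoin (Set.mem_insert _ _)⟩)).pow n
    have h3 := h2.mul h1
    rwa [← mul_assoc, ← mul_pow, inv_mul_cancel₀ hs0, one_pow, one_mul] at h3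

/-- The unit ideal is tested on the members of `Z`. -/
theorem unit_ideal {Z : ValuationSubring K → Prop} (hZ : Zc k Z) {A : Subalgebra k K}
    (hA : IntFG A) (J : Ideal A)
    (hJ : ∀ V, Z V → (∀ a ∈ A, a ∈ V) → ∃ j : A, j ∈ J ∧ V.valuation (j : K) = 1) : J = ⊤ := by
  by_contra hne
  obtain ⟨W, hW, hWJ⟩ := Ideal.image_subset_nonunits_valuationSubring (A := A.toSubring) J hne
  obtain ⟨V₀, hle, hZ₀, h0⟩ := hZ.spec' hA (V := W) fun a ha => hW ha
  obtain ⟨j, hj, h1⟩ := hJ V₀ hZ₀ h0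
  have h2 : (j : K) ∈ W.nonunits := hWJ ⟨j, hj, rfl⟩
  rw [ValuationSubring.mem_nonunits_iff] at h2
  rw [val_eq_one_of_le hle h1] at h2
  exact lt_irrefl _ h2

/-- The local-global principle. -/
theorem local_global {Z : ValuationSubring K → Prop} (hZ : Zc k Z) {S : Subalgebra k K}
    (hS : IntFG S) {s : K} (hs : s ∈ S) (hs0 : s ≠ 0) (T : Submodule k K) (x : K)
    (hx : ∀ V, Z V → (∀ a ∈ S, a ∈ V) → V.valuation s = 1 →
      x ∈ Subalgebra.toSubmodule (locV V S) * T) :
    ∃ n : ℕ, s ^ n * x ∈ Subalgebra.toSubmodule S * T := by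
  let A := away S s hs
  let J : Ideal A :=
    { carrier := {a | ∃ n : ℕ, s ^ n * ((a : K) * x) ∈ Subalgebra.toSubmodule S * T}
      add_mem' := by
        rintro a b ⟨n, hn⟩ ⟨m, hm⟩
        refine ⟨n + m, ?_⟩
        have e : s ^ (n + m) * (((a + b : A) : K) * x) =
            s ^ m * (s ^ n * ((a : K) * x)) + s ^ n * (s ^ m * ((b : K) * x)) := by
          push_cast
          ring
        rw [e]
        exact Submodule.add_mem _ (smul_mem' (S.pow_mem hs m) hn) (smul_mem' (S.pow_mem hs n) hm)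
      zero_mem' := ⟨0, by simp⟩
      smul_mem' := by
        rintro c a ⟨n, hn⟩
        obtain ⟨m, hm⟩ := mem_away.1 c.2
        refine ⟨m + n, ?_⟩
        have e : s ^ (m + n) * (((c • a : A) : K) * x) =
            s ^ m * (c : K) * (s ^ n * ((a : K) * x)) := by
          rw [smul_eq_mul]
          push_cast
          ring
        rw [e]
        exact smul_mem' hm hn }
  have hJ : J = ⊤ := by
    refine unit_ideal hZ (hS.away hs hs0) J ?_
    intro V hV hAV
    have hSV : ∀ a ∈ S, a ∈ V := fun a ha => hAV a (le_away S s hs ha)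
    have h1 : V.valuation s = 1 := by
      refine le_antisymm ((V.valuation_le_one_iff _).2 (hSV s hs)) ?_
      have h2 := (V.valuation_le_one_iff _).2 (hAV _ (inv_mem_away (hs := hs) hs0))
      rw [map_inv₀] at h2
      have hv0 : V.valuation s ≠ 0 := by rwa [Valuation.ne_zero_iff]
      exact (inv_le_one₀ (by rwa [zero_lt_iff])).1 h2
    obtain ⟨b, hb, hb1, hbx⟩ := clear (hx V hV hSV h1)
    exact ⟨⟨b, le_away S s hs hb⟩, ⟨0, by simpa using hbx⟩, hb1⟩
  have h1 : (1 : A) ∈ J := by rw [hJ]; trivial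
  obtain ⟨n, hn⟩ := h1
  exact ⟨n, by simpa using hn⟩

/-! ### Charts -/

open Pool.Agent.TG (IsMin ch ncl chN RV NV rat Ov ZDim)

theorem ch_fg {P : Submodule k K} (hP : P.FG) (f : K) : (ch P f).FG := by
  classical
  obtain ⟨S, hS⟩ := hP
  refine ⟨S.image (fun g => g / f), le_antisymm ?_ ?_⟩
  · refine Algebra.adjoin_mono ?_
    rintro x hx
    obtain ⟨g, hg, rfl⟩ := Finset.mem_image.1 (Finset.mem_coe.1 hx)
    exact ⟨g, hS ▸ Submodule.subset_span hg, rfl⟩
  · refine Algebra.adjoin_le ?_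
    rintro _ ⟨g, hg, rfl⟩
    rw [← hS] at hg
    refine Submodule.span_induction (p := fun g _ => g / f ∈ Algebra.adjoin k
      ((S.image fun g => g / f : Finset K) : Set K)) ?_ ?_ ?_ ?_ hg
    · intro x hx
      exact Algebra.subset_adjoin (Finset.mem_coe.2 (Finset.mem_image.2 ⟨x, hx, rfl⟩))
    · simp
    · intro x y _ _ hx hy
      rw [add_div]
      exact Subalgebra.add_mem _ hx hy
    · intro c x _ hx
      rw [Algebra.smul_def, mul_div_assoc]
      exact Subalgebra.mul_mem _ (Subalgebra.algebraMap_mem _ c) hx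

theorem div_mem_ch {P : Submodule k K} {f g : K} (hg : g ∈ P) : g / f ∈ ch P f :=
  Algebra.subset_adjoin ⟨g, hg, rfl⟩

theorem ch_le_V {V : ValuationSubring K} {P : Submodule k K} {f : K} (hV : Ov k V)
    (hf : IsMin V P f) : ∀ a ∈ ch P f, a ∈ V := by
  intro a ha
  refine Algebra.adjoin_induction (p := fun a _ => a ∈ V) ?_ ?_ ?_ ?_ ha
  · rintro _ ⟨g, hg, rfl⟩
    exact hf.div g hg
  · exact fun c => hV c
  · exact fun x y _ _ hx hy => V.add_mem _ _ hx hy
  · exact fun x y _ _ hx hy => V.mul_mem _ _ hx hy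

theorem isMin_of_ch {V : ValuationSubring K} {P : Submodule k K} {f : K} (hf : f ∈ P)
    (hf0 : f ≠ 0) (h : ∀ a ∈ ch P f, a ∈ V) : IsMin V P f :=
  ⟨hf, hf0, fun _ hg => h _ (div_mem_ch hg)⟩

/-- The ratio of a minimal element and another one with the same value. -/
theorem isMin_of_val {V : ValuationSubring K} {P : Submodule k K} {f f' : K} (hf : IsMin V P f)
    (hf' : f' ∈ P) (h : V.valuation (f' / f) = 1) : IsMin V P f' := by
  have h0 : f' ≠ 0 := by rintro rfl; simp at h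
  refine ⟨hf', h0, fun g hg => ?_⟩
  rw [show g / f' = g / f * (f' / f)⁻¹ by rw [inv_div]; field_simp [hf.ne]]
  refine V.mul_mem _ _ (hf.div g hg) ?_
  rw [← V.valuation_le_one_iff, map_inv₀, h, inv_one]

theorem val_div_isMin {V : ValuationSubring K} {P : Submodule k K} {f f' : K} (hf : IsMin V P f)
    (hf' : IsMin V P f') : V.valuation (f' / f) = 1 := by
  have h1 := (V.valuation_le_one_iff _).2 (hf.div f' hf'.mem)
  have h2 := (V.valuation_le_one_iff _).2 (hf'.div f hf.mem)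
  rw [← inv_div, map_inv₀] at h2
  have hv0 : V.valuation (f' / f) ≠ 0 := by
    rw [Valuation.ne_zero_iff]
    exact div_ne_zero hf'.ne hf.ne
  exact le_antisymm h1 ((inv_le_one₀ (by rwa [zero_lt_iff])).1 h2)

/-- A system of charts of the model `P` (of the model itself, or of the normalisation). -/
structure Charts (P : Submodule k K) (C : K → Subalgebra k K) : Prop where
  le : ∀ f ∈ P, f ≠ 0 → ch P f ≤ C f
  int : ∀ f ∈ P, f ≠ 0 → ∀ x ∈ C f, IsIntegral (ch P f) x
  loc : ∀ V : ValuationSubring K, Ov k V → ∀ f f', IsMin V P f → IsMin V P f' →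
    locV V (C f) ≤ locV V (C f')

/-- `M V` is the local ring. -/
def Coh (Z : ValuationSubring K → Prop) (P : Submodule k K) (C : K → Subalgebra k K)
    (I : ValuationSubring K → Submodule k K) : Prop :=
  ∀ V, Z V → ∃ f, IsMin V P f ∧ ∃ T F : Finset K, (∀ x ∈ F, x ∈ locV V (C f)) ∧
    ∀ V', Z V' → IsMin V' P f → (∀ x ∈ F, x ∈ locV V' (C f)) →
      I V' = Subalgebra.toSubmodule (locV V' (C f)) * Submodule.span k (T : Set K)

theorem Charts.mem_V {P : Submodule k K} {C : K → Subalgebra k K} (hC : Charts P C)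
    {V : ValuationSubring K} (hV : Ov k V) {f : K} (hf : IsMin V P f) : ∀ a ∈ C f, a ∈ V :=
  fun a ha => mem_of_isIntegral (ch_le_V hV hf) (hC.int f hf.mem hf.ne a ha)

theorem Charts.intFG {P : Submodule k K} {C : K → Subalgebra k K} (hC : Charts P C)
    (hP : P.FG) {f : K} (hf : f ∈ P) (hf0 : f ≠ 0) : IntFG (C f) :=
  ⟨ch P f, ch_fg hP f, hC.le f hf hf0, hC.int f hf hf0⟩

theorem Charts.loc_eq {P : Submodule k K} {C : K → Subalgebra k K} (hC : Charts P C)
    {V : ValuationSubring K} (hV : Ov k V) {f f' : K} (hf : IsMin V P f) (hf' : IsMin V P f') :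
    locV V (C f) = locV V (C f') :=
  le_antisymm (hC.loc V hV f f' hf hf') (hC.loc V hV f' f hf' hf)

/-- Step 0: the coherence condition at every minimal element, with one denominator. -/
theorem Coh.strong {Z : ValuationSubring K → Prop} (hZ : Zc k Z) {P : Submodule k K}
    {C : K → Subalgebra k K} (hC : Charts P C) {I : ValuationSubring K → Submodule k K}
    (hI : Coh Z P C I) (V : ValuationSubring K) (hV : Z V) (f : K) (hf : IsMin V P f) :
    ∃ T : Finset K, ∃ h ∈ C f, V.valuation h = 1 ∧ ∀ V', Z V' → IsMin V' P f →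
      V'.valuation h = 1 →
      I V' = Subalgebra.toSubmodule (locV V' (C f)) * Submodule.span k (T : Set K) := by
  classical
  obtain ⟨f₁, hf₁, T, F, hF, hT⟩ := hI V hV
  have hden : ∀ x ∈ F, ∃ b ∈ C f, V.valuation b = 1 ∧ b * x ∈ C f := by
    intro x hx
    have := hF x hx
    rw [hC.loc_eq (hZ.base V hV) hf₁ hf] at this
    obtain ⟨a, ha, b, hb, h1, rfl⟩ := this
    have hb0 : b ≠ 0 := by rintro rfl; simp at h1
    exact ⟨b, hb, h1, by rwa [mul_div_cancel₀ _ hb0]⟩
  choose! b hb hb1 hbx using hden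
  have hu : V.valuation (f₁ / f) = 1 := val_div_isMin hf hf₁
  refine ⟨T, f₁ / f * ∏ x ∈ F, b x, ?_, ?_, ?_⟩
  · exact (C f).mul_mem (hC.le f hf.mem hf.ne (div_mem_ch hf₁.mem))
      (Subalgebra.prod_mem _ fun x hx => hb x hx)
  · rw [map_mul, map_prod, hu, one_mul]
    exact Finset.prod_eq_one fun x hx => hb1 x hx
  · intro V' hV' hf' h1
    have hCV := hC.mem_V (hZ.base V' hV') hf'
    have hle1 : ∀ x ∈ F, V'.valuation (b x) ≤ 1 := fun x hx =>
      (V'.valuation_le_one_iff _).2 (hCV _ (hb x hx))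
    have hle2 : V'.valuation (f₁ / f) ≤ 1 := (V'.valuation_le_one_iff _).2 (hf'.div _ hf₁.mem)
    have hle3 : V'.valuation (∏ x ∈ F, b x) ≤ 1 := by
      rw [map_prod]
      exact Finset.prod_le_one' hle1
    rw [map_mul] at h1
    have hu' : V'.valuation (f₁ / f) = 1 := by
      refine le_antisymm hle2 ?_
      calc (1 : V'.ValueGroup) = V'.valuation (f₁ / f) * V'.valuation (∏ x ∈ F, b x) := h1.symm
        _ ≤ V'.valuation (f₁ / f) * 1 := mul_le_mul_right hle3 _
        _ = _ := mul_one _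
    have hb' : ∀ x ∈ F, V'.valuation (b x) = 1 := by
      intro x hx
      refine le_antisymm (hle1 x hx) ?_
      rw [hu', one_mul, map_prod, ← Finset.mul_prod_erase F _ hx] at h1
      calc (1 : V'.ValueGroup) = V'.valuation (b x) * ∏ y ∈ F.erase x, V'.valuation (b y) := h1.symm
        _ ≤ V'.valuation (b x) * 1 := mul_le_mul_right (Finset.prod_le_one' fun y hy =>
            hle1 y (Finset.mem_of_mem_erase hy)) _
        _ = _ := mul_one _
    have hf₁' : IsMin V' P f₁ := isMin_of_val hf' hf₁.mem hu'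
    have hE := hC.loc_eq (hZ.base V' hV') hf₁' hf'
    rw [← hE]
    refine hT V' hV' hf₁' fun x hx => ?_
    rw [hE]
    have hb0 : b x ≠ 0 := by
      intro h0
      have := hb' x hx
      simp [h0] at this
    exact ⟨b x * x, hbx x hx, b x, hb x hx, hb' x hx, by rw [mul_div_cancel_left₀ _ hb0]⟩

/-! ### The covers -/

section Cover

variable {Z : ValuationSubring K → Prop} {P : Submodule k K} {C : K → Subalgebra k K}
  {I : ValuationSubring K → Submodule k K}

/-- Good data at the minimal element `f`. -/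
def Good (Z : ValuationSubring K → Prop) (P : Submodule k K) (C : K → Subalgebra k K)
    (I : ValuationSubring K → Submodule k K) (f h : K) (T : Finset K) : Prop :=
  h ∈ C f ∧ h ≠ 0 ∧ ∀ V', Z V' → IsMin V' P f → V'.valuation h = 1 →
      I V' = Subalgebra.toSubmodule (locV V' (C f)) * Submodule.span k (T : Set K)

theorem val_eq_one_of_inv_mem {V : ValuationSubring K} {h : K} (h0 : h ≠ 0) (hV : h ∈ V)
    (hV' : h⁻¹ ∈ V) : V.valuation h = 1 := by
  have h1 := (V.valuation_le_one_iff _).2 hV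
  have h2 := (V.valuation_le_one_iff _).2 hV'
  rw [map_inv₀] at h2
  have hv0 : V.valuation h ≠ 0 := by rwa [Valuation.ne_zero_iff]
  exact le_antisymm h1 ((inv_le_one₀ (by rwa [zero_lt_iff])).1 h2)

theorem mem_of_val_eq_one {V : ValuationSubring K} {h : K} (h1 : V.valuation h = 1) : h ∈ V :=
  (V.valuation_le_one_iff _).1 h1.le

theorem inv_mem_of_val_eq_one {V : ValuationSubring K} {h : K} (h1 : V.valuation h = 1) :
    h⁻¹ ∈ V := by
  rw [← V.valuation_le_one_iff, map_inv₀, h1, inv_one]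

/-- Quasi-compactness of the chart at `f`. -/
theorem cover_chart (hZ : Zc k Z) (hP : P.FG) (hC : Charts P C) (hI : Coh Z P C I) {f : K}
    (hf : f ∈ P) (hf0 : f ≠ 0) :
    ∃ D : Finset (K × Finset K), (∀ p ∈ D, Good Z P C I f p.1 p.2) ∧
      ∀ V, Z V → IsMin V P f → ∃ p ∈ D, V.valuation p.1 = 1 := by
  classical
  let ι := {p : K × Finset K // Good Z P C I f p.1 p.2}
  obtain ⟨t, ht⟩ := ZRC.zr_compact (K := K) (C f : Set K)
    (fun p : ι => {V | V.valuation p.1.1 = 1}) (by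
      rintro ⟨p, hp⟩ V hV hCV
      refine ⟨{p.1⁻¹}, ?_, ?_⟩
      · intro x hx
        rw [Finset.coe_singleton, Set.mem_singleton_iff] at hx
        rw [hx]
        exact inv_mem_of_val_eq_one hV
      · intro V' hCV' hF
        exact val_eq_one_of_inv_mem hp.2.1 (hCV' hp.1) (hF (by simp))) (by
      intro V hCV
      obtain ⟨V₀, hle, hZ₀, h0⟩ := hZ.spec V (ch P f) (ch_fg hP f) fun a ha =>
        hCV (hC.le f hf hf0 ha)
      have hm : IsMin V₀ P f := isMin_of_ch hf hf0 h0
      obtain ⟨T, h, hh, h1, hT⟩ := hI.strong hZ hC V₀ hZ₀ f hm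
      have hne : h ≠ 0 := by rintro rfl; simp at h1
      exact ⟨⟨(h, T), hh, hne, hT⟩, val_eq_one_of_le hle h1⟩)
  refine ⟨t.image Subtype.val, ?_, ?_⟩
  · intro p hp
    obtain ⟨q, _, rfl⟩ := Finset.mem_image.1 hp
    exact q.2
  · intro V hV hm
    obtain ⟨p, hp, hpV⟩ := ht V fun a ha => hC.mem_V (hZ.base V hV) hm a ha
    exact ⟨p.1, Finset.mem_image_of_mem _ hp, hpV⟩

theorem locV_mul_mem {S : Subalgebra k K} {V : ValuationSubring K} {T : Submodule k K} {s w : K}
    (hs : s ∈ S) (hw : w ∈ Subalgebra.toSubmodule (locV V S) * T) :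
    s * w ∈ Subalgebra.toSubmodule (locV V S) * T := smul_mem' (le_locV S hs) hw

theorem inv_locV {S : Subalgebra k K} {V : ValuationSubring K} {s : K}
    (hs : s ∈ S) (h1 : V.valuation s = 1) : s⁻¹ ∈ locV V S := locV_inv (le_locV S hs) h1

theorem mono_locV {S : Subalgebra k K} {V : ValuationSubring K} {T : Submodule k K} {w : K}
    (hw : w ∈ Subalgebra.toSubmodule S * T) : w ∈ Subalgebra.toSubmodule (locV V S) * T :=
  (mul_le_mul' (show Subalgebra.toSubmodule S ≤ Subalgebra.toSubmodule (locV V S) from le_locV S)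
    le_rfl) hw

/-- Lemma 1: an element of `I V` times a unit is in `I V'` for all `V'` of the chart. -/
theorem lemma1 (hZ : Zc k Z) (hP : P.FG) (hC : Charts P C) (hI : Coh Z P C I) {f : K}
    {V : ValuationSubring K} (hV : Z V) (hf : IsMin V P f) {a : K} (ha : a ∈ I V) :
    ∃ s ∈ C f, V.valuation s = 1 ∧ ∀ V', Z V' → IsMin V' P f → s * a ∈ I V' := by
  classical
  obtain ⟨D, hD, hcov⟩ := cover_chart hZ hP hC hI hf.mem hf.ne
  obtain ⟨T₀, h₀, hh₀, h₀1, hT₀⟩ := hI.strong hZ hC V hV f hf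
  have h₀0 : h₀ ≠ 0 := by rintro rfl; simp at h₀1
  rw [hT₀ V hV hf h₀1] at ha
  obtain ⟨b, hb, hb1, hba⟩ := clear ha
  have key : ∀ p ∈ D, ∃ n : ℕ, (h₀ * p.1) ^ n * (b * a) ∈
      Subalgebra.toSubmodule (C f) * Submodule.span k (p.2 : Set K) := by
    intro p hp
    obtain ⟨hp1, hp2, hp3⟩ := hD p hp
    refine local_global hZ (hC.intFG hP hf.mem hf.ne) ((C f).mul_mem hh₀ hp1)
      (mul_ne_zero h₀0 hp2) _ _ ?_
    intro V' hV' hCV' h1
    have hm : IsMin V' P f := isMin_of_ch hf.mem hf.ne fun a ha => hCV' a (hC.le f hf.mem hf.ne ha)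
    have ha1 := (V'.valuation_le_one_iff _).2 (hCV' _ hh₀)
    have ha2 := (V'.valuation_le_one_iff _).2 (hCV' _ hp1)
    rw [map_mul] at h1
    have hb1 : V'.valuation h₀ = 1 := by
      refine le_antisymm ha1 ?_
      calc (1 : V'.ValueGroup) = V'.valuation h₀ * V'.valuation p.1 := h1.symm
        _ ≤ V'.valuation h₀ * 1 := mul_le_mul_right ha2 _
        _ = _ := mul_one _
    have hb2 : V'.valuation p.1 = 1 := by rwa [hb1, one_mul] at h1
    rw [← hp3 V' hV' hm hb2, hT₀ V' hV' hm hb1]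
    exact mono_locV hba
  choose! n hn using key
  refine ⟨h₀ ^ (D.sup n) * b, (C f).mul_mem ((C f).pow_mem hh₀ _) hb, ?_, ?_⟩
  · rw [map_mul, map_pow, h₀1, hb1, one_pow, one_mul]
  · intro V' hV' hm
    obtain ⟨p, hp, hp1⟩ := hcov V' hV' hm
    obtain ⟨hq1, hq2, hq3⟩ := hD p hp
    rw [hq3 V' hV' hm hp1]
    have h1 := mono_locV (V := V') (hn p hp)
    have hle : n p ≤ D.sup n := Finset.le_sup hp
    have h2 := locV_mul_mem ((C f).pow_mem hh₀ (D.sup n - n p)) h1
    have h3 := smul_mem' ((locV V' (C f)).pow_mem (inv_locV hq1 hp1) (n p)) h2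
    rw [show h₀ ^ D.sup n * b * a = p.1⁻¹ ^ n p * (h₀ ^ (D.sup n - n p) *
      ((h₀ * p.1) ^ n p * (b * a))) by
        rw [mul_pow, inv_pow, show h₀ ^ D.sup n = h₀ ^ (D.sup n - n p) * h₀ ^ n p by
          rw [← pow_add, Nat.sub_add_cancel hle]]
        field_simp]
    exact h3

/-- Lemma 2. -/
theorem lemma2 (hZ : Zc k Z) (hP : P.FG) (hC : Charts P C) (hI : Coh Z P C I) {f f' : K}
    (hf : f ∈ P) (hf0 : f ≠ 0) (hf' : f' ∈ P) (hf'0 : f' ≠ 0) {a : K}
    (ha : ∀ V, Z V → IsMin V P f → a ∈ I V) :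
    ∃ n₀ : ℕ, ∀ n ≥ n₀, ∀ V, Z V → IsMin V P f' → (f / f') ^ n * a ∈ I V := by
  classical
  obtain ⟨D, hD, hcov⟩ := cover_chart hZ hP hC hI hf' hf'0
  have hu : f / f' ∈ C f' := hC.le f' hf' hf'0 (div_mem_ch hf)
  have hu0 : f / f' ≠ 0 := div_ne_zero hf0 hf'0
  have key : ∀ p ∈ D, ∃ n : ℕ, (p.1 * (f / f')) ^ n * a ∈
      Subalgebra.toSubmodule (C f') * Submodule.span k (p.2 : Set K) := by
    intro p hp
    obtain ⟨hp1, hp2, hp3⟩ := hD p hp
    refine local_global hZ (hC.intFG hP hf' hf'0) ((C f').mul_mem hp1 hu)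
      (mul_ne_zero hp2 hu0) _ _ ?_
    intro V hV hCV h1
    have hm : IsMin V P f' := isMin_of_ch hf' hf'0 fun a ha => hCV a (hC.le f' hf' hf'0 ha)
    have ha1 := (V.valuation_le_one_iff _).2 (hCV _ hp1)
    have ha2 := (V.valuation_le_one_iff _).2 (hCV _ hu)
    rw [map_mul] at h1
    have hb1 : V.valuation p.1 = 1 := by
      refine le_antisymm ha1 ?_
      calc (1 : V.ValueGroup) = V.valuation p.1 * V.valuation (f / f') := h1.symm
        _ ≤ V.valuation p.1 * 1 := mul_le_mul_right ha2 _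
        _ = _ := mul_one _
    have hb2 : V.valuation (f / f') = 1 := by rwa [hb1, one_mul] at h1
    have hm' : IsMin V P f := isMin_of_val hm hf hb2
    rw [← hp3 V hV hm hb1]
    exact ha V hV hm'
  choose! n hn using key
  refine ⟨D.sup n, fun N hN V hV hm => ?_⟩
  obtain ⟨p, hp, hp1⟩ := hcov V hV hm
  obtain ⟨hq1, hq2, hq3⟩ := hD p hp
  rw [hq3 V hV hm hp1]
  have h1 := mono_locV (V := V) (hn p hp)
  have hle : n p ≤ N := (Finset.le_sup hp).trans hN
  have h2 := locV_mul_mem ((C f').pow_mem hu (N - n p)) h1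
  have h3 := smul_mem' ((locV V (C f')).pow_mem (inv_locV hq1 hp1) (n p)) h2
  rw [show (f / f') ^ N * a = p.1⁻¹ ^ n p * ((f / f') ^ (N - n p) *
      ((p.1 * (f / f')) ^ n p * a)) by
        rw [mul_pow, inv_pow, show (f / f') ^ N = (f / f') ^ (N - n p) * (f / f') ^ n p by
          rw [← pow_add, Nat.sub_add_cancel hle]]
        field_simp]
  exact h3

/-- Global data: the generators are in `I V` on the whole chart of `f`. -/
theorem exists_good (hZ : Zc k Z) (hP : P.FG) (hC : Charts P C) (hI : Coh Z P C I)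
    {V : ValuationSubring K} (hV : Z V) :
    ∃ f, IsMin V P f ∧ ∃ h : K, ∃ T : Finset K, V.valuation h = 1 ∧ Good Z P C I f h T ∧
      ∀ t ∈ T, ∀ V', Z V' → IsMin V' P f → t ∈ I V' := by
  classical
  obtain ⟨f, hf, -⟩ := hI V hV
  obtain ⟨T, h, hh, h1, hT⟩ := hI.strong hZ hC V hV f hf
  have key : ∀ t ∈ T, ∃ s ∈ C f, V.valuation s = 1 ∧
      ∀ V', Z V' → IsMin V' P f → s * t ∈ I V' := by
    intro t ht
    refine lemma1 hZ hP hC hI hV hf ?_
    rw [hT V hV hf h1]
    have := Submodule.mul_mem_mul (show (1 : K) ∈ Subalgebra.toSubmodule (locV V (C f)) from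
      (locV V (C f)).one_mem) (Submodule.subset_span (R := k) (Finset.mem_coe.2 ht))
    rwa [one_mul] at this
  choose! s hs hs1 hsI using key
  have hI_smul : ∀ V', Z V' → IsMin V' P f → ∀ c ∈ C f, ∀ x ∈ I V', c * x ∈ I V' := by
    intro V' hV' hm c hc x hx
    obtain ⟨T', h', hh', h1', hT'⟩ := hI.strong hZ hC V' hV' f hm
    rw [hT' V' hV' hm h1'] at hx ⊢
    exact locV_mul_mem hc hx
  have h0 : h ≠ 0 := by rintro rfl; simp at h1
  have hprod1 : V.valuation (∏ t ∈ T, s t) = 1 := by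
    rw [map_prod]
    exact Finset.prod_eq_one hs1
  have hprod0 : (∏ t ∈ T, s t) ≠ 0 := by
    intro h0
    rw [h0] at hprod1
    simp at hprod1
  have hprodC : (∏ t ∈ T, s t) ∈ C f := Subalgebra.prod_mem _ hs
  refine ⟨f, hf, h * ∏ t ∈ T, s t, T.image (fun t => (∏ t ∈ T, s t) * t), ?_, ⟨?_, ?_, ?_⟩, ?_⟩
  · rw [map_mul, h1, hprod1, one_mul]
  · exact (C f).mul_mem hh hprodC
  · exact mul_ne_zero h0 hprod0
  · intro V' hV' hm h1'
    have hCV := hC.mem_V (hZ.base V' hV') hm
    have ha1 := (V'.valuation_le_one_iff _).2 (hCV _ hh)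
    have ha2 := (V'.valuation_le_one_iff _).2 (hCV _ hprodC)
    rw [map_mul] at h1'
    have hb1 : V'.valuation h = 1 := by
      refine le_antisymm ha1 ?_
      calc (1 : V'.ValueGroup) = V'.valuation h * V'.valuation (∏ t ∈ T, s t) := h1'.symm
        _ ≤ V'.valuation h * 1 := mul_le_mul_right ha2 _
        _ = _ := mul_one _
    have hb2 : V'.valuation (∏ t ∈ T, s t) = 1 := by rwa [hb1, one_mul] at h1'
    rw [hT V' hV' hm hb1]
    apply le_antisymm
    · rw [Submodule.mul_le]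
      intro m hm' x hx
      refine Submodule.span_induction (p := fun x _ => m * x ∈
        Subalgebra.toSubmodule (locV V' (C f)) * Submodule.span k
          ((T.image (fun t => (∏ t ∈ T, s t) * t) : Finset K) : Set K)) ?_ ?_ ?_ ?_ hx
      · intro t ht
        have h2 := Submodule.mul_mem_mul (show m * (∏ t ∈ T, s t)⁻¹ ∈
          Subalgebra.toSubmodule (locV V' (C f)) from
          (locV V' (C f)).mul_mem hm' (inv_locV hprodC hb2)) (Submodule.subset_span (R := k)
          (Finset.mem_coe.2 (Finset.mem_image_of_mem (fun t => (∏ t ∈ T, s t) * t)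
            (Finset.mem_coe.1 ht))))
        rwa [show m * (∏ t ∈ T, s t)⁻¹ * ((∏ t ∈ T, s t) * t) = m * t by
          field_simp] at h2
      · simp
      · intro x y _ _ h1 h2
        rw [mul_add]
        exact Submodule.add_mem _ h1 h2
      · intro c x _ h1
        rw [mul_smul_comm]
        exact Submodule.smul_mem _ c h1
    · rw [Submodule.mul_le]
      intro m hm' x hx
      refine Submodule.span_induction (p := fun x _ => m * x ∈
        Subalgebra.toSubmodule (locV V' (C f)) * Submodule.span k (T : Set K)) ?_ ?_ ?_ ?_ hx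
      · intro x hx
        obtain ⟨t, ht, rfl⟩ := Finset.mem_image.1 (Finset.mem_coe.1 hx)
        have h2 := Submodule.mul_mem_mul (show m * (∏ t ∈ T, s t) ∈
          Subalgebra.toSubmodule (locV V' (C f)) from
          (locV V' (C f)).mul_mem hm' (le_locV _ hprodC)) (Submodule.subset_span (R := k)
          (Finset.mem_coe.2 ht))
        rwa [mul_assoc] at h2
      · simp
      · intro x y _ _ h1 h2
        rw [mul_add]
        exact Submodule.add_mem _ h1 h2
      · intro c x _ h1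
        rw [mul_smul_comm]
        exact Submodule.smul_mem _ c h1
  · intro x hx V' hV' hm
    obtain ⟨t, ht, rfl⟩ := Finset.mem_image.1 hx
    rw [← Finset.mul_prod_erase T _ ht, show s t * (∏ x ∈ T.erase t, s x) * t =
      (∏ x ∈ T.erase t, s x) * (s t * t) by ring]
    exact hI_smul V' hV' hm _ (Subalgebra.prod_mem _ fun x hx => hs x (Finset.mem_of_mem_erase hx))
      _ (hsI t ht V' hV' hm)

/-- `Q / x`. -/
def dv (Q : Submodule k K) (x : K) : Submodule k K := Q.map (LinearMap.mulRight k x⁻¹)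

theorem mem_dv {Q : Submodule k K} {x y : K} : y ∈ dv Q x ↔ ∃ q ∈ Q, y = q / x := by
  simp only [dv, Submodule.mem_map, LinearMap.mulRight_apply, div_eq_mul_inv, eq_comm]

theorem aux1 {f q m t : K} {N : ℕ} (hf : f ≠ 0) (hq : q ≠ 0) :
    m * (f / q) ^ N * (t * q ^ N / f ^ N) = m * t := by
  rw [div_pow]
  field_simp

theorem aux2 {f q m t p : K} {N : ℕ} (hf : f ≠ 0) (hq : q ≠ 0) :
    m * (q / f) ^ N * ((p / q) ^ N * t) = m * (t * p ^ N / f ^ N) := by
  rw [div_pow, div_pow]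
  field_simp

/-- **The family lemma.** -/
theorem family (hZ : Zc k Z) (hP : P.FG) (hC : Charts P C) (hI : Coh Z P C I) :
    ∃ N₀ : ℕ, ∀ N ≥ N₀, ∃ Q : Submodule k K, Q.FG ∧ ∀ V, Z V → ∀ f, IsMin V P f →
      I V = Subalgebra.toSubmodule (locV V (C f)) * dv Q (f ^ N) := by
  classical
  -- a finite cover
  let ι := {p : K × K × Finset K // p.1 ∈ P ∧ p.1 ≠ 0 ∧ Good Z P C I p.1 p.2.1 p.2.2 ∧
    ∀ t ∈ p.2.2, ∀ V', Z V' → IsMin V' P p.1 → t ∈ I V'}
  obtain ⟨D, hD⟩ := ZRC.zr_compact (K := K) (Set.range (algebraMap k K))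
    (fun p : ι => {V | IsMin V P p.1.1 ∧ V.valuation p.1.2.1 = 1}) (by
      rintro ⟨⟨f, h, T⟩, hf, hf0, hG, hT⟩ V ⟨hm, hV1⟩ hkV
      obtain ⟨S, hS⟩ := ch_fg hP f
      have hkV' : Ov k V := fun c => hkV ⟨c, rfl⟩
      refine ⟨insert h⁻¹ S, ?_, ?_⟩
      · intro x hx
        rw [Finset.coe_insert] at hx
        rcases hx with rfl | hx
        · exact inv_mem_of_val_eq_one hV1
        · exact ch_le_V hkV' hm x (hS ▸ Algebra.subset_adjoin hx)
      · intro V' hkV'' hF
        have hm' : IsMin V' P f := by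
          refine isMin_of_ch hf hf0 ?_
          rw [← hS]
          intro a ha
          refine Algebra.adjoin_induction (p := fun a _ => a ∈ V') ?_ ?_ ?_ ?_ ha
          · exact fun x hx => hF (by rw [Finset.coe_insert]; exact Or.inr hx)
          · exact fun c => hkV'' ⟨c, rfl⟩
          · exact fun x y _ _ hx hy => V'.add_mem _ _ hx hy
          · exact fun x y _ _ hx hy => V'.mul_mem _ _ hx hy
        refine ⟨hm', val_eq_one_of_inv_mem hG.2.1 ?_ (hF (by simp))⟩
        exact hC.mem_V (fun c => hkV'' ⟨c, rfl⟩) hm' _ hG.1) (by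
      intro V hkV
      obtain ⟨V₀, hle, hZ₀, -⟩ := hZ.spec V ⊥ Subalgebra.fg_bot (by
        rintro a ha
        obtain ⟨c, rfl⟩ := Algebra.mem_bot.1 ha
        exact hkV ⟨c, rfl⟩)
      obtain ⟨f, hf, h, T, h1, hG, hT⟩ := exists_good hZ hP hC hI hZ₀
      refine ⟨⟨(f, h, T), hf.mem, hf.ne, hG, hT⟩, ?_, val_eq_one_of_le hle h1⟩
      exact ⟨hf.mem, hf.ne, fun g hg => hle (hf.div g hg)⟩)
  -- the exponent
  have key : ∀ p q : ι, ∀ t : K, ∃ n₀ : ℕ, t ∈ p.1.2.2 → ∀ n ≥ n₀, ∀ V, Z V →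
      IsMin V P q.1.1 → (p.1.1 / q.1.1) ^ n * t ∈ I V := by
    intro p q t
    by_cases ht : t ∈ p.1.2.2
    · obtain ⟨n₀, hn⟩ := lemma2 hZ hP hC hI p.2.1 p.2.2.1 q.2.1 q.2.2.1 (a := t)
        (p.2.2.2.2 t ht)
      exact ⟨n₀, fun _ => hn⟩
    · exact ⟨0, fun h => absurd h ht⟩
  choose n₀ hn₀ using key
  refine ⟨D.sup fun p => D.sup fun q => p.1.2.2.sup fun t => n₀ p q t, fun N hN => ?_⟩
  have hN' : ∀ p ∈ D, ∀ q ∈ D, ∀ t ∈ p.1.2.2, ∀ V, Z V → IsMin V P q.1.1 →
      (p.1.1 / q.1.1) ^ N * t ∈ I V := by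
    intro p hp q hq t ht
    refine hn₀ p q t ht N (le_trans ?_ hN)
    refine le_trans ?_ (Finset.le_sup (f := fun p : ι => D.sup fun q => p.1.2.2.sup
      fun t => n₀ p q t) hp)
    refine le_trans ?_ (Finset.le_sup (f := fun q : ι => p.1.2.2.sup fun t => n₀ p q t) hq)
    exact Finset.le_sup (f := fun t => n₀ p q t) ht
  let Q₀ : Finset K := D.biUnion fun p => p.1.2.2.image fun t => t * p.1.1 ^ N
  refine ⟨Submodule.span k (Q₀ : Set K), ⟨Q₀, rfl⟩, fun V hV f hf => ?_⟩
  have hov : Ov k V := hZ.base V hV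
  obtain ⟨q, hq, hqm, hq1⟩ := hD V (by rintro _ ⟨c, rfl⟩; exact hov c)
  have hE : locV V (C q.1.1) = locV V (C f) := hC.loc_eq hov hqm hf
  have hIV := q.2.2.2.1.2.2 V hV hqm hq1
  have hfq0 : f ≠ 0 := hf.ne
  have hq0 : q.1.1 ≠ 0 := hqm.ne
  have hu : f / q.1.1 ∈ locV V (C f) := hE ▸ le_locV _ (hC.le _ hqm.mem hqm.ne (div_mem_ch hf.mem))
  have hu' : q.1.1 / f ∈ locV V (C f) := le_locV _ (hC.le _ hf.mem hf.ne (div_mem_ch hqm.mem))
  apply le_antisymm
  · rw [hIV, hE, Submodule.mul_le]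
    intro m hm x hx
    refine Submodule.span_induction (p := fun x _ => m * x ∈
      Subalgebra.toSubmodule (locV V (C f)) * dv (Submodule.span k (Q₀ : Set K)) (f ^ N))
      ?_ ?_ ?_ ?_ hx
    · intro t ht
      have h1 : t * q.1.1 ^ N ∈ Submodule.span k (Q₀ : Set K) :=
        Submodule.subset_span (Finset.mem_coe.2 (Finset.mem_biUnion.2 ⟨q, hq,
          Finset.mem_image.2 ⟨t, Finset.mem_coe.1 ht, rfl⟩⟩))
      have h2 := Submodule.mul_mem_mul (show m * (f / q.1.1) ^ N ∈
        Subalgebra.toSubmodule (locV V (C f)) from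
          (locV V (C f)).mul_mem hm ((locV V (C f)).pow_mem hu N))
          (mem_dv.2 ⟨_, h1, rfl⟩ : t * q.1.1 ^ N / f ^ N ∈ dv _ _)
      rwa [aux1 hfq0 hq0] at h2
    · simp
    · intro x y _ _ h1 h2
      rw [mul_add]
      exact Submodule.add_mem _ h1 h2
    · intro c x _ h1
      rw [mul_smul_comm]
      exact Submodule.smul_mem _ c h1
  · rw [Submodule.mul_le]
    intro m hm x hx
    obtain ⟨y, hy, rfl⟩ := mem_dv.1 hx
    refine Submodule.span_induction (p := fun y _ => m * (y / f ^ N) ∈ I V) ?_ ?_ ?_ ?_ hy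
    · intro y hy
      obtain ⟨p, hp, hy⟩ := Finset.mem_biUnion.1 (Finset.mem_coe.1 hy)
      obtain ⟨t, ht, rfl⟩ := Finset.mem_image.1 hy
      have h1 := hN' p hp q hq t ht V hV hqm
      rw [hIV, hE] at h1 ⊢
      have h2 := smul_mem' ((locV V (C f)).mul_mem hm ((locV V (C f)).pow_mem hu' N)) h1
      rwa [aux2 hfq0 hq0] at h2
    · simp
    · intro x y _ _ h1 h2
      rw [add_div, mul_add]
      exact Submodule.add_mem _ h1 h2
    · intro c x _ h1
      rw [Algebra.smul_def, mul_div_assoc, ← Algebra.smul_def, mul_smul_comm]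
      exact Submodule.smul_mem _ c h1

end Cover

end Pool.Agent.TG98
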