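import Pool.Agent.Lib.TG.Basic

/-!
# The quotient of a model by a finite group
-/

set_option autoImplicit false

namespace Pool.Agent.TG98

open Pool.Agent.LU2 Pool.Agent.TG Polynomial

universe u

/-! ### Minimal elements for finitely many valuation rings -/

section Avoid

variable {k K : Type u} [Field k] [Field K] [Algebra k K]

theorem val_one_iff {V : ValuationSubring K} {x : K} :
    V.valuation x = 1 ↔ x ∈ V ∧ x⁻¹ ∈ V ∧ x ≠ 0 := by
  constructor
  · intro h
    refine ⟨(V.valuation_le_one_iff _).1 h.le, ?_, ?_⟩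
    · rw [← V.valuation_le_one_iff, map_inv₀, h, inv_one]
    · rintro rfl
      simp at h
  · rintro ⟨h1, h2, h0⟩
    have h1 := (V.valuation_le_one_iff _).2 h1
    have h2 := (V.valuation_le_one_iff _).2 h2
    rw [map_inv₀] at h2
    have hv0 : V.valuation x ≠ 0 := by rwa [Valuation.ne_zero_iff]
    exact le_antisymm h1 ((inv_le_one₀ (by rwa [zero_lt_iff])).1 h2)

theorem exists_isMin_all [Infinite k] {P : Submodule k K} (hP : IsModel P) {ι : Type*} [Finite ι]
    [Nonempty ι] (V : ι → ValuationSubring K) (hV : ∀ i, Ov k (V i)) :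
    ∃ f, ∀ i, IsMin (V i) P f := by
  choose f hf using fun i => exists_isMin (hV i) hP
  let p : ι → Subspace k P := fun i =>
    { carrier := {x | (V i).valuation ((x : K) / f i) < 1}
      add_mem' := by
        intro x y hx hy
        change (V i).valuation (((x + y : P) : K) / f i) < 1
        rw [Submodule.coe_add, add_div]
        exact lt_of_le_of_lt ((V i).valuation.map_add _ _) (max_lt hx hy)
      zero_mem' := by simp
      smul_mem' := by
        intro c x hx
        change (V i).valuation (((c • x : P) : K) / f i) < 1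
        rw [Submodule.coe_smul, Algebra.smul_def, mul_div_assoc, map_mul]
        calc (V i).valuation (algebraMap k K c) * (V i).valuation ((x : K) / f i)
            ≤ 1 * (V i).valuation ((x : K) / f i) :=
              mul_le_mul_left (((V i).valuation_le_one_iff _).2 (hV i c)) _
          _ = _ := one_mul _
          _ < 1 := hx }
  have hne : ⋃ i, (p i : Set P) ≠ Set.univ := by
    intro h
    obtain ⟨i, hi⟩ := Subspace.exists_eq_top_of_iUnion_eq_univ h
    have h1 : (⟨f i, (hf i).mem⟩ : P) ∈ p i := by rw [hi]; trivial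
    have h2 : (V i).valuation (f i / f i) < 1 := h1
    rw [div_self (hf i).ne, map_one] at h2
    exact lt_irrefl _ h2
  obtain ⟨x, hx⟩ := (Set.ne_univ_iff_exists_notMem _).1 hne
  refine ⟨x, fun i => (hf i).of_val x.2 ?_⟩
  refine le_antisymm (((V i).valuation_le_one_iff _).2 ((hf i).div x x.2)) ?_
  by_contra h
  push Not at h
  exact hx (Set.mem_iUnion.2 ⟨i, h⟩)

end Avoid

/-! ### Integrality and homomorphisms -/

section Hom

variable {k K L : Type u} [Field k] [Field K] [Field L] [Algebra k K] [Algebra k L]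

theorem ncl_hom {R : Subalgebra k K} {S : Subalgebra k L} (φ : K →+* L) (h : ∀ r ∈ R, φ r ∈ S)
    {x : K} (hx : x ∈ ncl R) : φ x ∈ ncl S := by
  obtain ⟨p, hp, hc, h0⟩ := exists_poly_of_mem_ncl hx
  refine mem_ncl_of_root (p.map φ) (hp.map φ) (fun i => le_ncl S ?_) ?_
  · rw [coeff_map]
    exact h _ (hc i)
  · rw [eval_map, eval₂_hom, h0, map_zero]

theorem ncl_descend (j : K →ₐ[k] L) {R : Subalgebra k K} {x : K}
    (hx : j x ∈ ncl (R.map j)) : x ∈ ncl R := by
  obtain ⟨p, hp, hc, h0⟩ := exists_poly_of_mem_ncl hx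
  have h1 : p ∈ Polynomial.lifts ((j : K →+* L).comp (algebraMap R K)) := by
    rw [Polynomial.lifts_iff_coeff_lifts]
    intro i
    obtain ⟨c, hc, hci⟩ := hc i
    exact ⟨⟨c, hc⟩, hci⟩
  obtain ⟨q, hq, -, hqm⟩ := Polynomial.lifts_and_natDegree_eq_and_monic h1 hp
  refine ⟨q, hqm, ?_⟩
  apply (j : K →+* L).injective
  rw [map_zero, Polynomial.hom_eval₂, ← Polynomial.eval_map, hq]
  exact h0

end Hom

/-! ### Products -/

section Prod

variable {k L : Type u} [Field k] [Field L] [Algebra k L]

theorem coeff_prod_mem {ι : Type*} (Q : Submodule k L) {F : L} (hF : F ∈ Q) (c : ι → L)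
    (hc : ∀ i, c i ∈ Q) (s : Finset ι) :
    ∀ m, (∏ i ∈ s, (C F * X - C (c i))).coeff m ∈ Q ^ s.card := by
  classical
  induction s using Finset.induction_on with
  | empty =>
    intro m
    rw [Finset.prod_empty, Finset.card_empty, pow_zero, coeff_one]
    split_ifs
    · exact Submodule.one_le.1 le_rfl
    · exact Submodule.zero_mem _
  | insert i s hi ih =>
    intro m
    rw [Finset.prod_insert hi, Finset.card_insert_of_notMem hi, pow_succ', sub_mul, coeff_sub,
      mul_assoc, coeff_C_mul, coeff_C_mul]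
    refine Submodule.sub_mem _ ?_ (Submodule.mul_mem_mul (hc i) (ih m))
    rcases m with _ | m
    · simp
    · rw [coeff_X_mul]
      exact Submodule.mul_mem_mul hF (ih m)

theorem isMin_prod {V : ValuationSubring L} (hV : Ov k V) {ι : Type*} {P : Submodule k L}
    (f : ι → L) (s : Finset ι) (hf : ∀ i ∈ s, IsMin V P (f i)) :
    IsMin V (P ^ s.card) (∏ i ∈ s, f i) := by
  classical
  induction s using Finset.induction_on with
  | empty =>
    rw [Finset.prod_empty, Finset.card_empty, pow_zero]
    refine ⟨Submodule.one_le.1 le_rfl, one_ne_zero, fun x hx => ?_⟩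
    obtain ⟨c, rfl⟩ := Submodule.mem_one.1 hx
    rw [div_one]
    exact hV c
  | insert i s hi ih =>
    rw [Finset.prod_insert hi, Finset.card_insert_of_notMem hi, pow_succ']
    exact (hf i (Finset.mem_insert_self _ _)).mul
      (ih fun j hj => hf j (Finset.mem_insert_of_mem hj))

end Prod

/-! ### The quotient -/

section Quot

variable {k K L : Type u} [Field k] [Field K] [Field L] [Algebra k K] [Algebra k L] [Algebra K L]
  [IsScalarTower k K L]

/-- The invariants of `P ^ (n * n)`. -/
def invW (K : Type u) [Field K] [Algebra k K] [Algebra K L] [IsScalarTower k K L]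
    (P : Submodule k L) (n : ℕ) : Submodule k K :=
  (P ^ (n * n)).comap (IsScalarTower.toAlgHom k K L).toLinearMap

theorem mem_invW {P : Submodule k L} {n : ℕ} {x : K} :
    x ∈ invW K P n ↔ algebraMap K L x ∈ P ^ (n * n) := Iff.rfl

theorem invW_fg {P : Submodule k L} (hP : P.FG) (n : ℕ) : (invW K P n).FG := by
  have h1 : (P ^ (n * n)).FG := hP.pow _
  have h2 : ((invW K P n).map (IsScalarTower.toAlgHom k K L).toLinearMap) ≤ P ^ (n * n) :=
    Submodule.map_comap_le _ _
  have h3 : ((invW K P n).map (IsScalarTower.toAlgHom k K L).toLinearMap).FG := by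
    have : FiniteDimensional k (P ^ (n * n) : Submodule k L) := by
      rw [FiniteDimensional, Module.finite_def, Submodule.fg_top]
      exact h1
    exact (Submodule.fg_top _).1 (Module.finite_def.1 (Submodule.finiteDimensional_of_le h2))
  exact Submodule.fg_of_fg_map_injective _ (IsScalarTower.toAlgHom k K L).toRingHom.injective h3

variable [FiniteDimensional K L] [IsGalois K L]

theorem exists_of_fixed {x : L} (h : ∀ σ : L ≃ₐ[K] L, σ x = x) : ∃ y : K, algebraMap K L y = x :=
  (IsGalois.mem_range_algebraMap_iff_fixed x).2 h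

omit [FiniteDimensional K L] [IsGalois K L] in
theorem val_comap_eq_one {V : ValuationSubring L} {x : K} :
    (V.comap (algebraMap K L)).valuation x = 1 ↔ V.valuation (algebraMap K L x) = 1 := by
  rw [val_one_iff, val_one_iff, ValuationSubring.mem_comap, ValuationSubring.mem_comap,
    map_inv₀, map_ne_zero_iff _ (algebraMap K L).injective]

/-- **The quotient lemma.** `P` is a model of `L` stable under `Gal(L/K)`. The normalisation of the
quotient is given by a model `W` of `K`. -/
theorem quotient [Infinite k] {P : Submodule k L} (hP : IsModel P)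
    (hst : ∀ σ : L ≃ₐ[K] L, ∀ x ∈ P, σ x ∈ P) :
    IsModel (invW K P (Fintype.card (L ≃ₐ[K] L))) ∧
    ∀ V : ValuationSubring L, Ov k V →
      (∃ F, IsMin (V.comap (algebraMap K L)) (invW K P (Fintype.card (L ≃ₐ[K] L))) F ∧
        IsMin V (P ^ (Fintype.card (L ≃ₐ[K] L) * Fintype.card (L ≃ₐ[K] L))) (algebraMap K L F)) ∧
      ∀ x : K, x ∈ NV (V.comap (algebraMap K L)) (invW K P (Fintype.card (L ≃ₐ[K] L))) ↔
        algebraMap K L x ∈ NV V P := by
  classical
  set n := Fintype.card (L ≃ₐ[K] L) with hn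
  have hn0 : 0 < n := Fintype.card_pos
  obtain ⟨m, hm⟩ : ∃ m, n = m + 1 := ⟨n - 1, by omega⟩
  set j : K →ₐ[k] L := IsScalarTower.toAlgHom k K L with hj
  have hja : ∀ x, j x = algebraMap K L x := fun x => rfl
  -- the main construction
  have main : ∀ V : ValuationSubring L, Ov k V → ∃ F₀ : K, IsMin V (P ^ n) (algebraMap K L F₀) ∧
      IsMin (V.comap (algebraMap K L)) (invW K P n) (F₀ ^ n) := by
    intro V hV
    obtain ⟨f₀, hf₀⟩ := exists_isMin_all hP (fun σ : L ≃ₐ[K] L => V.comap (σ : L →+* L)) (by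
      intro σ c
      change σ (algebraMap k L c) ∈ V
      rw [IsScalarTower.algebraMap_apply k K L, σ.commutes, ← IsScalarTower.algebraMap_apply]
      exact hV c)
    have h1 : ∀ σ : L ≃ₐ[K] L, IsMin V P (σ f₀) := by
      intro σ
      refine ⟨hst σ _ (hf₀ σ).mem, (map_ne_zero_iff _ σ.injective).2 (hf₀ σ).ne, fun g hg => ?_⟩
      have h2 : σ (σ.symm g / f₀) ∈ V := (hf₀ σ).div _ (hst σ.symm g hg)
      rwa [map_div₀, AlgEquiv.apply_symm_apply] at h2
    have h2 : IsMin V (P ^ n) (∏ σ : L ≃ₐ[K] L, σ f₀) :=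
      isMin_prod hV (fun σ : L ≃ₐ[K] L => σ f₀) Finset.univ fun σ _ => h1 σ
    refine ⟨Algebra.norm K f₀, ?_, ?_⟩
    · rw [Algebra.norm_eq_prod_automorphisms]
      exact h2
    · rw [← Algebra.norm_eq_prod_automorphisms] at h2
      have h3 := h2.pow hV n
      rw [← pow_mul] at h3
      refine ⟨?_, ?_, fun w hw => ?_⟩
      · rw [mem_invW, map_pow]
        exact h3.mem
      · intro h0
        apply h3.ne
        rw [← map_pow, h0, map_zero]
      · change algebraMap K L (w / Algebra.norm K f₀ ^ n) ∈ V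
        rw [map_div₀, map_pow]
        exact h3.div _ hw
  have hmodel : IsModel (invW K P n) := by
    obtain ⟨F₀, h1, h2⟩ := main ⊤ fun c => ValuationSubring.mem_top _
    exact ⟨invW_fg hP.fg n, fun h0 => h2.ne (by simpa [h0] using h2.mem)⟩
  refine ⟨hmodel, fun V hV => ?_⟩
  obtain ⟨F₀, hmin, hminW⟩ := main V hV
  refine ⟨⟨F₀ ^ n, hminW, by rw [pow_mul, map_pow]; exact hmin.pow hV n⟩, ?_⟩
  set FL : L := algebraMap K L F₀ with hFL
  -- the charts
  set B : Subalgebra k L := ch (P ^ n) FL with hB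
  set A : Subalgebra k K := ch (invW K P n) (F₀ ^ n) with hA
  have hNV : NV V P = locV V (ncl B) := by
    have h1 : RV V (P ^ n) = RV V P := by rw [hm]; exact RV_pow hV hP m
    rw [← NV_congr h1, NV_eq hmin]
    rfl
  have hNW : NV (V.comap (algebraMap K L)) (invW K P n) =
      locV (V.comap (algebraMap K L)) (ncl A) := NV_eq hminW
  have hchB : ch ((P ^ n) ^ n) (FL ^ n) = B := by
    conv_lhs => rw [show ch ((P ^ n) ^ n) (FL ^ n) = ch ((P ^ n) ^ (m + 1)) (FL ^ (m + 1)) by
      rw [← hm]]
    exact ch_pow hmin.mem hmin.ne m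
  have hAB : ∀ a ∈ A, algebraMap K L a ∈ B := by
    intro a ha
    have h1 : A ≤ B.comap j := by
      rw [hA, ch_le_iff]
      intro w hw
      change algebraMap K L (w / F₀ ^ n) ∈ B
      rw [← hchB, map_div₀, map_pow]
      exact div_mem_ch (by rw [← pow_mul]; exact hw)
    exact h1 ha
  have hBA : B ≤ ncl (A.map j) := by
    rw [hB, ch_le_iff]
    intro g hg
    have hstn : ∀ N : ℕ, ∀ σ : L ≃ₐ[K] L, ∀ x ∈ P ^ N, σ x ∈ P ^ N := by
      intro N σ x hx
      have h1 : (P ^ N).map (σ.restrictScalars k : L →ₐ[k] L).toLinearMap ≤ P ^ N := by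
        rw [Submodule.map_pow]
        refine pow_le_pow_left' ?_ N
        rintro _ ⟨y, hy, rfl⟩
        exact hst σ y hy
      exact h1 ⟨x, hx, rfl⟩
    set p : Polynomial L := ∏ σ : L ≃ₐ[K] L, (C FL * X - C (σ g)) with hp
    have hpc : ∀ i, p.coeff i ∈ (P ^ n) ^ n := fun i =>
      coeff_prod_mem (P ^ n) hmin.mem (fun σ : L ≃ₐ[K] L => σ g) (fun σ => hstn n σ g hg)
        Finset.univ i
    have hpinv : ∀ τ : L ≃ₐ[K] L, p.map (τ : L →+* L) = p := by
      intro τ
      rw [hp, Polynomial.map_prod]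
      refine Fintype.prod_equiv (Equiv.mulLeft τ) _ _ fun σ => ?_
      rw [Polynomial.map_sub, Polynomial.map_mul, map_C, map_X, map_C]
      congr 2
      · congr 1
        exact τ.commutes F₀
    have hpK : ∀ i, ∃ w : K, algebraMap K L w = p.coeff i := by
      intro i
      refine exists_of_fixed fun τ => ?_
      conv_rhs => rw [← hpinv τ, coeff_map]
      rfl
    set q : Polynomial L := ∏ σ : L ≃ₐ[K] L, (X - C (σ g / FL)) with hq
    have hqp : q = C ((FL ^ n)⁻¹) * p := by
      rw [hp, hq, hn, ← Finset.card_univ (α := L ≃ₐ[K] L), ← inv_pow, map_pow,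
        ← Finset.prod_const, ← Finset.prod_mul_distrib]
      refine Finset.prod_congr rfl fun σ _ => ?_
      rw [mul_sub, ← mul_assoc, ← C_mul, ← C_mul, inv_mul_cancel₀ hmin.ne, C_1, one_mul,
        div_eq_inv_mul]
    refine mem_ncl_of_root q (monic_prod_of_monic _ _ fun σ _ => monic_X_sub_C _)
      (fun i => le_ncl _ ?_) ?_
    · obtain ⟨w, hw⟩ := hpK i
      refine ⟨w / F₀ ^ n, div_mem_ch ?_, ?_⟩
      · rw [mem_invW, hw, pow_mul]
        exact hpc i
      · change algebraMap K L (w / F₀ ^ n) = q.coeff i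
        rw [hqp, coeff_C_mul, map_div₀, hw, map_pow, div_eq_inv_mul]
    · rw [hq, eval_prod]
      refine Finset.prod_eq_zero (Finset.mem_univ (1 : L ≃ₐ[K] L)) ?_
      simp
  have hncl : ncl B = ncl (A.map j) := by
    refine le_antisymm ?_ (ncl_mono ?_)
    · rw [← ncl_ncl (A.map j)]
      exact ncl_mono hBA
    · rintro _ ⟨a, ha, rfl⟩
      exact hAB a ha
  have hdesc : ∀ x : K, algebraMap K L x ∈ ncl B ↔ x ∈ ncl A := by
    intro x
    rw [hncl]
    constructor
    · intro h
      exact ncl_descend j h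
    · intro h
      exact ncl_hom (S := A.map j) (algebraMap K L) (fun r hr => ⟨r, hr, rfl⟩) h
  have hBV : ∀ b ∈ ncl B, b ∈ V := ncl_mem (ch_le hV hmin)
  have hBst : ∀ σ : L ≃ₐ[K] L, ∀ b ∈ ncl B, σ b ∈ ncl B := by
    intro σ b hb
    refine ncl_hom (σ : L →+* L) (fun r hr => ?_) hb
    have h1 : B ≤ B.comap (σ.restrictScalars k : L →ₐ[k] L) := by
      rw [hB, ch_le_iff]
      intro g hg
      change σ (g / FL) ∈ ch (P ^ n) FL
      rw [map_div₀, hFL, σ.commutes]
      refine div_mem_ch ?_
      have h1 : (P ^ n).map (σ.restrictScalars k : L →ₐ[k] L).toLinearMap ≤ P ^ n := by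
        rw [Submodule.map_pow]
        refine pow_le_pow_left' ?_ n
        rintro _ ⟨y, hy, rfl⟩
        exact hst σ y hy
      exact h1 ⟨g, hg, rfl⟩
    exact h1 hr
  intro x
  rw [hNW, hNV]
  constructor
  · rintro ⟨a, ha, b, hb, h1, rfl⟩
    refine ⟨algebraMap K L a, (hdesc a).2 ha, algebraMap K L b, (hdesc b).2 hb,
      val_comap_eq_one.1 h1, by rw [map_div₀]⟩
  · intro hx
    -- the ideal of denominators
    let D : Ideal (ncl B) :=
      { carrier := {d | (d : L) * algebraMap K L x ∈ ncl B}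
        add_mem' := by
          intro a b ha hb
          change ((a + b : ncl B) : L) * algebraMap K L x ∈ ncl B
          rw [Subalgebra.coe_add, add_mul]
          exact (ncl B).add_mem ha hb
        zero_mem' := by
          change ((0 : ncl B) : L) * algebraMap K L x ∈ ncl B
          rw [Subalgebra.coe_zero, zero_mul]
          exact (ncl B).zero_mem
        smul_mem' := by
          intro c a ha
          change ((c • a : ncl B) : L) * algebraMap K L x ∈ ncl B
          rw [smul_eq_mul, Subalgebra.coe_mul, mul_assoc]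
          exact (ncl B).mul_mem c.2 ha }
    let q : (L ≃ₐ[K] L) → Ideal (ncl B) := fun σ =>
      { carrier := {c | V.valuation (σ (c : L)) < 1}
        add_mem' := by
          intro a b ha hb
          change V.valuation (σ ((a + b : ncl B) : L)) < 1
          rw [Subalgebra.coe_add, map_add]
          exact lt_of_le_of_lt (V.valuation.map_add _ _) (max_lt ha hb)
        zero_mem' := by
          change V.valuation (σ ((0 : ncl B) : L)) < 1
          simp
        smul_mem' := by
          intro c a ha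
          change V.valuation (σ ((c • a : ncl B) : L)) < 1
          rw [smul_eq_mul, Subalgebra.coe_mul, map_mul, map_mul]
          calc V.valuation (σ (c : L)) * V.valuation (σ (a : L)) ≤ 1 * V.valuation (σ (a : L)) :=
                mul_le_mul_left ((V.valuation_le_one_iff _).2 (hBV _ (hBst σ _ c.2))) _
            _ = _ := one_mul _
            _ < 1 := ha }
    have hmemq : ∀ σ (c : ncl B), c ∈ q σ ↔ V.valuation (σ (c : L)) < 1 := fun _ _ => Iff.rfl
    have hle1 : ∀ σ : L ≃ₐ[K] L, ∀ c : ncl B, V.valuation (σ (c : L)) ≤ 1 := fun σ c =>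
      (V.valuation_le_one_iff _).2 (hBV _ (hBst σ _ c.2))
    have hqp : ∀ σ, (q σ).IsPrime := by
      intro σ
      refine ⟨?_, ?_⟩
      · intro h
        have h1 : (1 : ncl B) ∈ q σ := by rw [h]; trivial
        rw [hmemq] at h1
        simp at h1
      · intro a b hab
        rw [hmemq, Subalgebra.coe_mul, map_mul, map_mul] at hab
        by_contra hcon
        push Not at hcon
        rw [hmemq, hmemq] at hcon
        have ha1 : V.valuation (σ (a : L)) = 1 := le_antisymm (hle1 σ a) (not_lt.1 hcon.1)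
        have hb1 : V.valuation (σ (b : L)) = 1 := le_antisymm (hle1 σ b) (not_lt.1 hcon.2)
        rw [ha1, hb1, one_mul] at hab
        exact lt_irrefl _ hab
    obtain ⟨a, ha, b, hb, hb1, hab⟩ := hx
    have hb0 : b ≠ 0 := by rintro rfl; simp at hb1
    have hbD : ∀ σ : L ≃ₐ[K] L, (⟨σ b, hBst σ b hb⟩ : ncl B) ∈ D := by
      intro σ
      change σ b * algebraMap K L x ∈ ncl B
      rw [← σ.commutes x, ← map_mul, hab, mul_div_cancel₀ _ hb0]
      exact hBst σ a ha
    have hex : ∃ d ∈ D, ∀ σ, d ∉ q σ := by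
      by_contra hcon
      push Not at hcon
      have h1 : ((D : Set (ncl B)) ⊆ ⋃ i ∈ ((Finset.univ : Finset (L ≃ₐ[K] L)) : Set _), q i) := by
        intro d hd
        obtain ⟨σ, hσ⟩ := hcon d hd
        exact Set.mem_biUnion (Finset.mem_coe.2 (Finset.mem_univ σ)) hσ
      rw [Ideal.subset_union_prime (1 : L ≃ₐ[K] L) 1 fun i _ _ _ => hqp i] at h1
      obtain ⟨σ, -, hσ⟩ := h1
      have h2 := hσ (hbD σ.symm)
      rw [hmemq] at h2
      change V.valuation (σ (σ.symm b)) < 1 at h2
      rw [AlgEquiv.apply_symm_apply, hb1] at h2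
      exact lt_irrefl _ h2
    obtain ⟨d, hdD, hdq⟩ := hex
    have hd1 : ∀ σ : L ≃ₐ[K] L, V.valuation (σ (d : L)) = 1 := fun σ =>
      le_antisymm (hle1 σ d) (not_lt.1 (hdq σ))
    set b' : K := Algebra.norm K (d : L) with hb'
    have hb'L : algebraMap K L b' = ∏ σ : L ≃ₐ[K] L, σ (d : L) :=
      Algebra.norm_eq_prod_automorphisms K _
    have hb'1 : V.valuation (algebraMap K L b') = 1 := by
      rw [hb'L, map_prod]
      exact Finset.prod_eq_one fun σ _ => hd1 σ
    have hb'0 : b' ≠ 0 := by
      intro h0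
      rw [h0] at hb'1
      simp at hb'1
    have hb'B : algebraMap K L b' ∈ ncl B := by
      rw [hb'L]
      exact Subalgebra.prod_mem _ fun σ _ => hBst σ _ d.2
    have hb'x : algebraMap K L (b' * x) ∈ ncl B := by
      rw [map_mul, hb'L, ← Finset.mul_prod_erase Finset.univ _ (Finset.mem_univ (1 : L ≃ₐ[K] L))]
      rw [show (1 : L ≃ₐ[K] L) (d : L) * (∏ σ ∈ Finset.univ.erase (1 : L ≃ₐ[K] L), σ (d : L)) *
        algebraMap K L x = (∏ σ ∈ Finset.univ.erase (1 : L ≃ₐ[K] L), σ (d : L)) *
        ((d : L) * algebraMap K L x) by rw [AlgEquiv.one_apply]; ring]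
      exact (ncl B).mul_mem (Subalgebra.prod_mem _ fun σ _ => hBst σ _ d.2) hdD
    exact ⟨b' * x, (hdesc _).1 hb'x, b', (hdesc _).1 hb'B, val_comap_eq_one.2 hb'1, by
      rw [mul_div_cancel_left₀ _ hb'0]⟩

end Quot

end Pool.Agent.TG98
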